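import Pool.Agent.N126.RC.Stm

/-! RC/NS (helper263 for helper126): the Nullstellensatz. -/

set_option autoImplicit false

open MvPolynomial

namespace Pool.Agent.N263.RC

open Pool.Agent.N126.RC

theorem main_NS : S_NS := by
  intro K _ _ n W ι _ G F q h
  obtain ⟨s, r, v, h1, h2⟩ := h
  set I : Ideal (MvPolynomial (Fin (n + 1) ⊕ W) K) :=
    Ideal.span {rename Sum.inl F} ⊔ Ideal.span (Set.range G) with hI
  have hF : rename Sum.inl F ∈ I := Ideal.mem_sup_left (Ideal.subset_span rfl)
  have hG : ∀ i, G i ∈ I := fun i => Ideal.mem_sup_right (Ideal.subset_span ⟨i, rfl⟩)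
  have h3 : ∀ j, ∃ N : ℕ, v j ^ N ∈ I := by
    intro j
    have h4 : v j ∈ vanishingIdeal K (zeroLocus K I) := by
      rw [mem_vanishingIdeal_iff]
      intro z hz
      rw [mem_zeroLocus_iff] at hz
      have h5 := h2 z (fun i => by simpa [aeval_eq_eval] using hz (G i) (hG i))
        (by simpa [aeval_eq_eval] using hz _ hF) j
      simpa [aeval_eq_eval] using h5
    rw [vanishingIdeal_zeroLocus_eq_radical] at h4
    exact h4
  choose N hN using h3
  refine ⟨s, r, ∑ j, N j, v, h1, fun j => ?_⟩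
  have h6 : N j ≤ ∑ j, N j := Finset.single_le_sum (fun _ _ => Nat.zero_le _) (Finset.mem_univ j)
  obtain ⟨m, hm⟩ := Nat.exists_eq_add_of_le h6
  rw [hm, pow_add]
  exact I.mul_mem_right _ (hN j)

end Pool.Agent.N263.RC
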